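import Pool.Agent.Lib_helper59.Cube59.OneBit
import Pool.Agent.Lib_helper8.CubeUpper

/-!
# Dual analytic families on the cube

For every `w` on the cube there is an analytic family `W(h, ·)` with `W(1/√3) = w`, bounded by
`‖w‖₂` for `|h| = 1`, whose Walsh coefficient at `S` has a pole of order at most `|S|` at `h = 0`.
-/

set_option autoImplicit false

open scoped Classical

namespace Pool.Agent.Cube59

open Metric Pool.Agent.Lib_helper8.Cube

variable {n : ℕ}

/-- `w` extends to a dual analytic family bounded by `N` on the unit circle. -/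
def Fam (w : Cube n → ℂ) (N : ℝ) : Prop :=
  ∃ W : ℂ → Cube n → ℂ,
    (∀ S : Finset (Fin n), ∃ g : ℂ → ℂ, DifferentiableOn ℂ g (closedBall 0 1) ∧
      ∀ h : ℂ, h ≠ 0 → g h = h ^ S.card * ∑ x, W h x * (chi S x : ℂ)) ∧
    (∀ x, W rho x = w x) ∧ (∀ h : ℂ, ‖h‖ = 1 → ∀ x, ‖W h x‖ ≤ N)

/-- The two halves of a dual analytic family in one more variable. -/
def Pair (w₁ w₂ : Cube n → ℂ) (N : ℝ) : Prop :=
  ∃ U V : ℂ → Cube n → ℂ,
    (∀ S : Finset (Fin n), ∃ g : ℂ → ℂ, DifferentiableOn ℂ g (closedBall 0 1) ∧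
      ∀ h : ℂ, h ≠ 0 → g h = h ^ S.card * ∑ x, (U h x + V h x) * (chi S x : ℂ)) ∧
    (∀ S : Finset (Fin n), ∃ g : ℂ → ℂ, DifferentiableOn ℂ g (closedBall 0 1) ∧
      ∀ h : ℂ, h ≠ 0 → g h = h ^ (S.card + 1) * ∑ x, (U h x - V h x) * (chi S x : ℂ)) ∧
    (∀ x, U rho x = w₁ x) ∧ (∀ x, V rho x = w₂ x) ∧
    (∀ h : ℂ, ‖h‖ = 1 → ∀ x, ‖U h x‖ ≤ N ∧ ‖V h x‖ ≤ N)

theorem Pair.symm {w₁ w₂ : Cube n → ℂ} {N : ℝ} (h : Pair w₁ w₂ N) : Pair w₂ w₁ N := by
  obtain ⟨U, V, h1, h2, h3, h4, h5⟩ := h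
  refine ⟨V, U, ?_, ?_, h4, h3, fun h hh x => ⟨(h5 h hh x).2, (h5 h hh x).1⟩⟩
  · intro S
    obtain ⟨g, hg, hg'⟩ := h1 S
    refine ⟨g, hg, fun h hh => ?_⟩
    rw [hg' h hh]
    simp_rw [add_comm]
  · intro S
    obtain ⟨g, hg, hg'⟩ := h2 S
    refine ⟨fun h => -g h, hg.neg, fun h hh => ?_⟩
    simp only
    rw [hg' h hh, ← mul_neg, ← Finset.sum_neg_distrib]
    congr 1
    refine Finset.sum_congr rfl fun x _ => ?_
    ring

lemma ball_mem : closedBall (0 : ℂ) 1 ∈ nhds (0 : ℂ) := closedBall_mem_nhds 0 one_pos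

lemma rhoC_ne : (rho : ℂ) ≠ 0 := by exact_mod_cast rho_pos.ne'

theorem pair_of_le {w₁ w₂ : Cube n → ℂ} {A B N : ℝ} (h₁ : Fam w₁ A) (h₂ : Fam w₂ B)
    (hB : 0 ≤ B) (hAB : B ≤ A) (hN0 : 0 ≤ N) (hN : A ^ 2 + B ^ 2 ≤ 2 * N ^ 2) :
    Pair w₁ w₂ N := by
  obtain ⟨W₁, h11, h12, h13⟩ := h₁
  obtain ⟨W₂, h21, h22, h23⟩ := h₂
  by_cases hA : A ≤ N
  · refine ⟨W₁, W₂, ?_, ?_, h12, h22, fun h hh x =>
      ⟨(h13 h hh x).trans hA, (h23 h hh x).trans (hAB.trans hA)⟩⟩
    · intro S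
      obtain ⟨g₁, hg₁, hg₁'⟩ := h11 S
      obtain ⟨g₂, hg₂, hg₂'⟩ := h21 S
      refine ⟨fun h => g₁ h + g₂ h, hg₁.add hg₂, fun h hh => ?_⟩
      simp only
      rw [hg₁' h hh, hg₂' h hh, ← mul_add, ← Finset.sum_add_distrib]
      congr 1
      refine Finset.sum_congr rfl fun x _ => ?_
      ring
    · intro S
      obtain ⟨g₁, hg₁, hg₁'⟩ := h11 S
      obtain ⟨g₂, hg₂, hg₂'⟩ := h21 S
      refine ⟨fun h => h * (g₁ h - g₂ h), differentiableOn_id.mul (hg₁.sub hg₂), fun h hh => ?_⟩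
      simp only
      rw [hg₁' h hh, hg₂' h hh, ← mul_sub, ← Finset.sum_sub_distrib, pow_succ]
      rw [← mul_assoc, mul_comm h (h ^ S.card)]
      congr 1
      refine Finset.sum_congr rfl fun x _ => ?_
      ring
  · push Not at hA
    have hNpos : 0 < N := by
      rcases hN0.lt_or_eq with h | h
      · exact h
      · exfalso; rw [← h] at hN hA; nlinarith [sq_nonneg B]
    have ha : 1 < A / N := by rwa [one_lt_div hNpos]
    have hb : 0 ≤ B / N := div_nonneg hB hNpos.le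
    have hab : (A / N) ^ 2 + (B / N) ^ 2 ≤ 2 := by
      rw [div_pow, div_pow, ← add_div, div_le_iff₀ (by positivity)]
      linarith
    obtain ⟨p, q, r, hp, hq, hr, hpq, hpρ, hqρ, hrρ, hb1, hb2⟩ := one_bit _ _ ha hb hab
    refine ⟨fun h x => p h / h * W₁ h x, fun h x => q h / h * W₁ h x + r h * W₂ h x,
      ?_, ?_, ?_, ?_, ?_⟩
    · intro S
      obtain ⟨g₁, hg₁, hg₁'⟩ := h11 S
      obtain ⟨g₂, hg₂, hg₂'⟩ := h21 S
      refine ⟨fun h => dslope (fun z => p z + q z) 0 h * g₁ h + r h * g₂ h,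
        (((Complex.differentiableOn_dslope ball_mem).2 (hp.add hq)).mul hg₁).add (hr.mul hg₂),
        fun h hh => ?_⟩
      simp only
      rw [dslope_of_ne _ hh, hg₁' h hh, hg₂' h hh, slope_def_field, hpq, sub_zero, sub_zero]
      rw [Finset.mul_sum, Finset.mul_sum, Finset.mul_sum, Finset.mul_sum, Finset.mul_sum,
        ← Finset.sum_add_distrib]
      refine Finset.sum_congr rfl fun x _ => ?_
      field_simp
      ring
    · intro S
      obtain ⟨g₁, hg₁, hg₁'⟩ := h11 S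
      obtain ⟨g₂, hg₂, hg₂'⟩ := h21 S
      refine ⟨fun h => (p h - q h) * g₁ h - h * (r h * g₂ h),
        ((hp.sub hq).mul hg₁).sub (differentiableOn_id.mul (hr.mul hg₂)), fun h hh => ?_⟩
      simp only
      rw [hg₁' h hh, hg₂' h hh]
      rw [Finset.mul_sum, Finset.mul_sum, Finset.mul_sum, Finset.mul_sum, Finset.mul_sum,
        Finset.mul_sum, ← Finset.sum_sub_distrib]
      refine Finset.sum_congr rfl fun x _ => ?_
      rw [pow_succ]
      field_simp
      ring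
    · intro x
      simp only
      rw [hpρ, div_self rhoC_ne, one_mul, h12]
    · intro x
      simp only
      rw [hqρ, hrρ, zero_div, zero_mul, zero_add, one_mul, h22]
    · intro h hh x
      have hb1' := hb1 h hh
      have hb2' := hb2 h hh
      have hW1 := h13 h hh x
      have hW2 := h23 h hh x
      have e1 : A * ‖p h‖ ≤ N := by
        rw [div_mul_eq_mul_div, div_le_one hNpos] at hb1'; exact hb1'
      have e2 : A * ‖q h‖ + B * ‖r h‖ ≤ N := by
        rw [div_mul_eq_mul_div, div_mul_eq_mul_div, ← add_div, div_le_one hNpos] at hb2'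
        exact hb2'
      constructor
      · simp only
        rw [norm_mul, norm_div, hh, div_one]
        calc ‖p h‖ * ‖W₁ h x‖ ≤ ‖p h‖ * A := mul_le_mul_of_nonneg_left hW1 (norm_nonneg _)
          _ ≤ N := by rw [mul_comm]; exact e1
      · simp only
        calc ‖q h / h * W₁ h x + r h * W₂ h x‖
            ≤ ‖q h / h * W₁ h x‖ + ‖r h * W₂ h x‖ := norm_add_le _ _
          _ = ‖q h‖ * ‖W₁ h x‖ + ‖r h‖ * ‖W₂ h x‖ := by
              rw [norm_mul, norm_div, hh, div_one, norm_mul]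
          _ ≤ ‖q h‖ * A + ‖r h‖ * B := by gcongr
          _ ≤ N := by rw [mul_comm _ A, mul_comm _ B]; exact e2

theorem pair_of {w₁ w₂ : Cube n → ℂ} {A B N : ℝ} (h₁ : Fam w₁ A) (h₂ : Fam w₂ B)
    (hA : 0 ≤ A) (hB : 0 ≤ B) (hN0 : 0 ≤ N) (hN : A ^ 2 + B ^ 2 ≤ 2 * N ^ 2) :
    Pair w₁ w₂ N := by
  rcases le_total B A with h | h
  · exact pair_of_le h₁ h₂ hB h hN0 hN
  · exact (pair_of_le h₂ h₁ hA h hN0 (by linarith)).symm

/-! ### Splitting off the first coordinate -/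

theorem sum_cube_succ {M : Type*} [AddCommMonoid M] (F : Cube (n + 1) → M) :
    ∑ x, F x = ∑ y : Cube n, (F (Fin.cons 1 y) + F (Fin.cons (-1) y)) := by
  rw [← (Fin.consEquiv (fun _ : Fin (n + 1) => ℤˣ)).sum_comp, Fintype.sum_prod_type]
  rw [show (Finset.univ : Finset ℤˣ) = {1, -1} from rfl]
  rw [Finset.sum_pair (by decide), ← Finset.sum_add_distrib]
  rfl

/-- The part of `S` in the last `n` coordinates. -/
noncomputable def tl (S : Finset (Fin (n + 1))) : Finset (Fin n) :=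
  Finset.univ.filter fun i => i.succ ∈ S

theorem chi_ite (S : Finset (Fin n)) (x : Cube n) :
    chi S x = ∏ i, (if i ∈ S then ((x i : ℤ) : ℝ) else 1) := by
  unfold chi
  rw [Finset.prod_ite_mem]
  simp

theorem chi_cons (S : Finset (Fin (n + 1))) (e : ℤˣ) (y : Cube n) :
    chi S (Fin.cons e y : Cube (n + 1)) =
      (if (0 : Fin (n + 1)) ∈ S then ((e : ℤ) : ℝ) else 1) * chi (tl S) y := by
  rw [chi_ite, chi_ite, Fin.prod_univ_succ]
  congr 1
  refine Finset.prod_congr rfl fun i _ => ?_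
  simp [tl]

theorem card_tl (S : Finset (Fin (n + 1))) :
    S.card = (if (0 : Fin (n + 1)) ∈ S then 1 else 0) + (tl S).card := by
  have h1 : S.card = ∑ i : Fin (n + 1), (if i ∈ S then 1 else 0) := by
    rw [Finset.sum_ite_mem]; simp
  rw [h1, Fin.sum_univ_succ]
  congr 1
  unfold tl
  rw [Finset.card_filter]

theorem fam_of_pair {w : Cube (n + 1) → ℂ} {N : ℝ}
    (h : Pair (fun y => w (Fin.cons 1 y)) (fun y => w (Fin.cons (-1) y)) N) : Fam w N := by
  obtain ⟨U, V, h1, h2, h3, h4, h5⟩ := h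
  refine ⟨fun h x => if x 0 = 1 then U h (Fin.tail x) else V h (Fin.tail x), ?_, ?_, ?_⟩
  · intro S
    by_cases hS : (0 : Fin (n + 1)) ∈ S
    · obtain ⟨g, hg, hg'⟩ := h2 (tl S)
      refine ⟨g, hg, fun h hh => ?_⟩
      rw [hg' h hh, sum_cube_succ, card_tl S, if_pos hS, add_comm 1]
      congr 1
      refine Finset.sum_congr rfl fun y _ => ?_
      rw [chi_cons, chi_cons, if_pos hS, if_pos hS]
      simp
      ring
    · obtain ⟨g, hg, hg'⟩ := h1 (tl S)
      refine ⟨g, hg, fun h hh => ?_⟩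
      rw [hg' h hh, sum_cube_succ, card_tl S, if_neg hS, zero_add]
      congr 1
      refine Finset.sum_congr rfl fun y _ => ?_
      rw [chi_cons, chi_cons, if_neg hS, if_neg hS]
      simp
      ring
  · intro x
    simp only
    rcases Int.units_eq_one_or (x 0) with h0 | h0
    · rw [if_pos h0, h3, ← h0]
      show w (Fin.cons (x 0) (Fin.tail x)) = w x
      rw [Fin.cons_self_tail]
    · rw [if_neg (by rw [h0]; decide), h4, ← h0]
      show w (Fin.cons (x 0) (Fin.tail x)) = w x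
      rw [Fin.cons_self_tail]
  · intro h hh x
    simp only
    split_ifs
    · exact (h5 h hh _).1
    · exact (h5 h hh _).2

/-- The normalized `L²` norm of a complex function on the cube. -/
noncomputable def nrm (w : Cube n → ℂ) : ℝ := Real.sqrt ((∑ x, ‖w x‖ ^ 2) / 2 ^ n)

theorem nrm_nonneg (w : Cube n → ℂ) : 0 ≤ nrm w := Real.sqrt_nonneg _

theorem nrm_sq (w : Cube n → ℂ) : nrm w ^ 2 = (∑ x, ‖w x‖ ^ 2) / 2 ^ n := by
  unfold nrm
  rw [Real.sq_sqrt]
  positivity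

theorem fam_all : ∀ (n : ℕ) (w : Cube n → ℂ), Fam w (nrm w) := by
  intro n
  induction n with
  | zero =>
    intro w
    have huniq : ∀ x : Cube 0, x = default := fun x => Subsingleton.elim _ _
    refine ⟨fun _ x => w x, ?_, fun x => rfl, ?_⟩
    · intro S
      refine ⟨fun h => h ^ S.card * ∑ x, w x * (chi S x : ℂ), ?_, fun h _ => rfl⟩
      fun_prop
    · intro h _ x
      unfold nrm
      apply Real.le_sqrt_of_sq_le
      rw [pow_zero, div_one]
      exact Finset.single_le_sum (f := fun x => ‖w x‖ ^ 2) (fun _ _ => by positivity)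
        (Finset.mem_univ x)
  | succ n ih =>
    intro w
    apply fam_of_pair
    apply pair_of (ih _) (ih _) (nrm_nonneg _) (nrm_nonneg _) (nrm_nonneg _)
    rw [nrm_sq, nrm_sq, nrm_sq, sum_cube_succ, Finset.sum_add_distrib, pow_succ]
    apply le_of_eq
    field_simp

end Pool.Agent.Cube59
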