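import Pool.Agent.Lib_helper59.Cube59.Family
import Pool.Agent.Lib_helper8.CubeLower

/-!
# `C^* = √3`
-/

set_option autoImplicit false

open scoped Classical

namespace Pool.Agent.Cube59

open Metric Pool.Agent.Lib_helper8.Cube

variable {n : ℕ}

/-- Walsh inversion. -/
theorem inversion (f : Cube n → ℝ) (x : Cube n) :
    (f x : ℂ) = ∑ S : Finset (Fin n), (coeff f S : ℂ) * (chi S x : ℂ) := by
  have h := T_expand 1 f x
  rw [T_one] at h
  rw [h]
  refine Finset.sum_congr rfl fun S _ => ?_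
  push_cast
  ring

theorem rho_pow_mul_norm2_le (f : Cube n → ℝ) : rho ^ deg f * norm2 f ≤ norm1 f := by
  obtain ⟨W, hW1, hW2, hW3⟩ := fam_all n (fun x => (f x : ℂ))
  set N : ℝ := nrm (fun x => (f x : ℂ)) with hNdef
  have hN : N = norm2 f := by
    rw [hNdef]; unfold nrm norm2 mean
    congr 2
    refine Finset.sum_congr rfl fun x _ => ?_
    rw [Complex.norm_real, Real.norm_eq_abs, sq_abs]
  have hN0 : 0 ≤ N := nrm_nonneg _
  have hpow : (0 : ℝ) < 2 ^ n := by positivity
  choose g hg hg' using hW1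
  set d := deg f with hd
  -- the analytic pairing
  set G : ℂ → ℂ := fun h => ∑ S : Finset (Fin n),
    (coeff f S : ℂ) * (h ^ (d - S.card) * g S h) with hG
  have hGd : DifferentiableOn ℂ G (closedBall 0 1) := by
    rw [hG]
    apply DifferentiableOn.fun_sum
    intro S _
    apply DifferentiableOn.const_mul
    apply DifferentiableOn.mul
    · exact (differentiable_id.pow _).differentiableOn
    · exact hg S
  have hGeq : ∀ h : ℂ, h ≠ 0 → G h = h ^ d * ∑ x, W h x * (f x : ℂ) := by
    intro h hh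
    have e1 : ∑ x, W h x * (f x : ℂ) =
        ∑ S : Finset (Fin n), (coeff f S : ℂ) * ∑ x, W h x * (chi S x : ℂ) := by
      simp_rw [inversion f, Finset.mul_sum]
      rw [Finset.sum_comm]
      refine Finset.sum_congr rfl fun S _ => Finset.sum_congr rfl fun x _ => ?_
      ring
    rw [e1, hG, Finset.mul_sum]
    refine Finset.sum_congr rfl fun S _ => ?_
    by_cases hS : S.card ≤ d
    · rw [hg' S h hh]
      have : h ^ d = h ^ (d - S.card) * h ^ S.card := by
        rw [← pow_add, Nat.sub_add_cancel hS]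
      rw [this]
      ring
    · push Not at hS
      rw [coeff_eq_zero hS]
      simp
  have hbound : ∀ h : ℂ, ‖h‖ = 1 → ‖G h‖ ≤ N * ∑ x, |f x| := by
    intro h hh
    have hne : h ≠ 0 := by
      intro h0; rw [h0, norm_zero] at hh; exact zero_ne_one hh
    rw [hGeq h hne, norm_mul, norm_pow, hh, one_pow, one_mul]
    calc ‖∑ x, W h x * (f x : ℂ)‖ ≤ ∑ x, ‖W h x * (f x : ℂ)‖ := norm_sum_le _ _
      _ ≤ ∑ x, N * |f x| := by
          refine Finset.sum_le_sum fun x _ => ?_
          rw [norm_mul, Complex.norm_real, Real.norm_eq_abs]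
          exact mul_le_mul_of_nonneg_right (hW3 h hh x) (abs_nonneg _)
      _ = N * ∑ x, |f x| := by rw [Finset.mul_sum]
  have hcl : closure (ball (0 : ℂ) 1) = closedBall 0 1 := closure_ball _ one_ne_zero
  have hdiff : DiffContOnCl ℂ G (ball (0 : ℂ) 1) := by
    apply DifferentiableOn.diffContOnCl
    rw [hcl]; exact hGd
  have hρmem : (rho : ℂ) ∈ closure (ball (0 : ℂ) 1) := by
    rw [hcl, mem_closedBall, dist_zero_right, Complex.norm_real, Real.norm_eq_abs,
      abs_of_pos rho_pos]
    exact rho_lt_one.le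
  have hmax := Complex.norm_le_of_forall_mem_frontier_norm_le isBounded_ball hdiff
    (C := N * ∑ x, |f x|) (fun z hz => hbound z (by
      rw [frontier_ball _ one_ne_zero] at hz; simpa using hz)) hρmem
  have hval : G rho = ((rho ^ d * ((∑ x, f x ^ 2 : ℝ)) : ℝ) : ℂ) := by
    rw [hGeq _ rhoC_ne]
    push_cast
    congr 1
    refine Finset.sum_congr rfl fun x _ => ?_
    rw [hW2]; ring
  rw [hval, Complex.norm_real, Real.norm_eq_abs, abs_of_nonneg (by
    have := rho_pos
    positivity)] at hmax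
  have hsq : ∑ x, f x ^ 2 = 2 ^ n * N ^ 2 := by
    rw [hNdef, nrm_sq]
    rw [mul_div_cancel₀ _ hpow.ne']
    refine Finset.sum_congr rfl fun x _ => ?_
    rw [Complex.norm_real, Real.norm_eq_abs, sq_abs]
  have hn1 : ∑ x, |f x| = 2 ^ n * norm1 f := by
    unfold norm1 mean
    rw [mul_div_cancel₀ _ hpow.ne']
  rw [hsq, hn1] at hmax
  rw [← hN]
  rcases hN0.lt_or_eq with hpos | hzero
  · have : (N * 2 ^ n) * (rho ^ d * N) ≤ (N * 2 ^ n) * norm1 f := by
      calc (N * 2 ^ n) * (rho ^ d * N) = rho ^ d * (2 ^ n * N ^ 2) := by ring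
        _ ≤ N * (2 ^ n * norm1 f) := hmax
        _ = (N * 2 ^ n) * norm1 f := by ring
    exact le_of_mul_le_mul_left this (by positivity)
  · rw [← hzero, mul_zero]
    unfold norm1
    exact mean_nonneg fun x => abs_nonneg _

theorem norm2_le_sqrt_three (f : Cube n → ℝ) :
    norm2 f ≤ Real.sqrt 3 ^ deg f * norm1 f := by
  have h := rho_pow_mul_norm2_le f
  have h3 : 0 < Real.sqrt 3 := by positivity
  have e : Real.sqrt 3 ^ deg f * rho ^ deg f = 1 := by
    rw [← mul_pow]; unfold rho; rw [mul_inv_cancel₀ h3.ne', one_pow]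
  calc norm2 f = Real.sqrt 3 ^ deg f * (rho ^ deg f * norm2 f) := by
        rw [← mul_assoc, e, one_mul]
    _ ≤ Real.sqrt 3 ^ deg f * norm1 f := mul_le_mul_of_nonneg_left h (by positivity)

theorem admissible_sqrt_three : Admissible (Real.sqrt 3) :=
  fun _ _ f => norm2_le_sqrt_three f

/-- `C^* = √3`, and it is attained. -/
theorem isLeast : IsLeast {C : ℝ | 0 < C ∧ Admissible C} (Real.sqrt 3) :=
  ⟨⟨by positivity, admissible_sqrt_three⟩, fun _ hC => sqrt_three_le hC.2⟩

end Pool.Agent.Cube59
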