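import Mathlib

/-!
# The one-bit step

The explicit rational functions used in the induction that proves `‖f‖₂ ≤ √3^d ‖f‖₁`.
-/

set_option autoImplicit false

namespace Pool.Agent.Cube59

open Metric

/-- `1/√3`. -/
noncomputable def rho : ℝ := (Real.sqrt 3)⁻¹

lemma rho_pos : 0 < rho := by
  unfold rho; positivity

lemma rho_sq : rho * rho = 1 / 3 := by
  unfold rho
  rw [← mul_inv, Real.mul_self_sqrt (by norm_num)]
  norm_num

lemma rho_lt_one : rho < 1 := by
  have h1 := rho_sq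
  have h2 := rho_pos
  nlinarith

lemma normSq_one_sub (t : ℝ) (h : ℂ) (hh : ‖h‖ = 1) :
    ‖(1 : ℂ) - t * h‖ ^ 2 = 1 + t ^ 2 - 2 * t * h.re := by
  have h1 : h.re * h.re + h.im * h.im = 1 := by
    have := Complex.sq_norm h
    rw [hh, Complex.normSq_apply] at this
    linarith
  rw [Complex.sq_norm, Complex.normSq_apply]
  simp
  nlinarith

lemma norm_sub_eq (t : ℝ) (h : ℂ) (hh : ‖h‖ = 1) :
    ‖h - t‖ = ‖(1 : ℂ) - t * h‖ := by
  have h1 : h.re * h.re + h.im * h.im = 1 := by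
    have := Complex.sq_norm h
    rw [hh, Complex.normSq_apply] at this
    linarith
  have h2 : ‖h - t‖ ^ 2 = ‖(1 : ℂ) - t * h‖ ^ 2 := by
    rw [Complex.sq_norm, Complex.normSq_apply, Complex.sq_norm, Complex.normSq_apply]
    simp
    linear_combination (1 - t ^ 2) * h1
  exact (pow_left_inj₀ (norm_nonneg _) (norm_nonneg _) two_ne_zero).1 h2

lemma one_sub_ne (t : ℝ) (ht : |t| < 1) (h : ℂ) (hh : ‖h‖ ≤ 1) : (1 : ℂ) - t * h ≠ 0 := by
  intro h0
  have h1 : ‖(t : ℂ) * h‖ = 1 := by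
    have : (t : ℂ) * h = 1 := by linear_combination -h0
    rw [this, norm_one]
  rw [norm_mul, Complex.norm_real, Real.norm_eq_abs] at h1
  nlinarith [abs_nonneg t, norm_nonneg h]

/-- The final elementary inequality: `(3 - 2a)² - (2 - a²)(2 - a)² = (a - 1)⁴`. -/
lemma key_ineq (a b : ℝ) (ha : 1 < a) (hab : a ^ 2 + b ^ 2 ≤ 2) :
    b * (2 - a) ≤ 3 - 2 * a := by
  have ha2 : a < 3 / 2 := by nlinarith
  have h1 : (b * (2 - a)) ^ 2 ≤ (3 - 2 * a) ^ 2 := by
    have h2 : (b * (2 - a)) ^ 2 ≤ (2 - a ^ 2) * (2 - a) ^ 2 := by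
      rw [mul_pow]
      exact mul_le_mul_of_nonneg_right (by linarith) (sq_nonneg _)
    have h3 : (3 - 2 * a) ^ 2 - (2 - a ^ 2) * (2 - a) ^ 2 = (a - 1) ^ 4 := by ring
    have h4 : 0 ≤ (a - 1) ^ 4 := by positivity
    linarith
  exact abs_le_of_sq_le_sq' h1 (by linarith) |>.2

theorem one_bit (a b : ℝ) (ha : 1 < a) (_hb : 0 ≤ b) (hab : a ^ 2 + b ^ 2 ≤ 2) :
    ∃ p q r : ℂ → ℂ, DifferentiableOn ℂ p (closedBall 0 1) ∧
      DifferentiableOn ℂ q (closedBall 0 1) ∧ DifferentiableOn ℂ r (closedBall 0 1) ∧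
      p 0 + q 0 = 0 ∧ p rho = rho ∧ q rho = 0 ∧ r rho = 1 ∧
      (∀ h : ℂ, ‖h‖ = 1 → a * ‖p h‖ ≤ 1) ∧
      (∀ h : ℂ, ‖h‖ = 1 → a * ‖q h‖ + b * ‖r h‖ ≤ 1) := by
  have ha2 : a < 3 / 2 := by nlinarith
  have hρ := rho_pos
  have hρ2 := rho_sq
  have hρ1 := rho_lt_one
  obtain ⟨u, hu⟩ : ∃ u : ℝ, u = 3 * (a - 1) / (3 - a) := ⟨_, rfl⟩
  have h3a : (0 : ℝ) < 3 - a := by linarith
  have hu' : u * (3 - a) = 3 * (a - 1) := by rw [hu]; field_simp
  have hu0 : 0 < u := by rw [hu]; apply div_pos <;> linarith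
  have hu1 : u < 1 := by rw [hu, div_lt_one h3a]; linarith
  obtain ⟨s, hs⟩ : ∃ s : ℝ, s = rho * u := ⟨_, rfl⟩
  have hs0 : 0 < s := by rw [hs]; positivity
  have hs1 : s < 1 := by rw [hs]; nlinarith
  have hsabs : |s| < 1 := by rw [abs_of_pos hs0]; exact hs1
  have hsabs' : |(-s)| < 1 := by rw [abs_neg]; exact hsabs
  have ha0 : (a : ℂ) ≠ 0 := by exact_mod_cast (by linarith : a ≠ 0)
  have hne1 : ∀ h : ℂ, ‖h‖ ≤ 1 → (1 : ℂ) + s * h ≠ 0 := by
    intro h hh
    have := one_sub_ne (-s) hsabs' h hh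
    push_cast at this
    intro h0
    apply this
    linear_combination h0
  have hne2 : ∀ h : ℂ, ‖h‖ ≤ 1 → (1 : ℂ) - s * h ≠ 0 := one_sub_ne s hsabs
  have hρC : (rho : ℂ) * rho = 1 / 3 := by
    rw [← Complex.ofReal_mul, hρ2]; push_cast; ring
  have hsC : (s : ℂ) = rho * u := by rw [hs]; push_cast; ring
  have huC : (u : ℂ) * (3 - a) = 3 * (a - 1) := by exact_mod_cast hu'
  have hρnorm : ‖(rho : ℂ)‖ ≤ 1 := by
    rw [Complex.norm_real, Real.norm_eq_abs, abs_of_pos hρ]; exact hρ1.le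
  refine ⟨fun h => (h + s) / (a * (1 + s * h)),
    fun h => u * (h - rho) * (1 - rho * h) / (a * (1 - s * h) ^ 2),
    fun h => ((1 - u / 3) / (1 - s * h)) ^ 2, ?_, ?_, ?_, ?_, ?_, ?_, ?_, ?_, ?_⟩
  · intro h hh
    have hh' : ‖h‖ ≤ 1 := by simpa using hh
    apply DifferentiableAt.differentiableWithinAt
    apply DifferentiableAt.div
    · fun_prop
    · fun_prop
    · exact mul_ne_zero ha0 (hne1 h hh')
  · intro h hh
    have hh' : ‖h‖ ≤ 1 := by simpa using hh
    apply DifferentiableAt.differentiableWithinAt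
    apply DifferentiableAt.div
    · fun_prop
    · fun_prop
    · exact mul_ne_zero ha0 (pow_ne_zero _ (hne2 h hh'))
  · intro h hh
    have hh' : ‖h‖ ≤ 1 := by simpa using hh
    apply DifferentiableAt.differentiableWithinAt
    apply DifferentiableAt.pow
    apply DifferentiableAt.div
    · fun_prop
    · fun_prop
    · exact hne2 h hh'
  · simp only [zero_add, mul_zero, add_zero, mul_one, zero_sub, sub_zero, one_pow]
    rw [hsC]; ring
  · have hne := hne1 (rho : ℂ) hρnorm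
    simp only
    rw [div_eq_iff (mul_ne_zero ha0 hne), hsC]
    linear_combination (-(u : ℂ) * rho * a) * hρC + (rho / 3 : ℂ) * huC
  · simp
  · have hne := hne2 (rho : ℂ) hρnorm
    have h1 : (1 : ℂ) - s * rho = 1 - u / 3 := by
      rw [hsC]; linear_combination (-(u : ℂ)) * hρC
    simp only
    rw [h1] at hne ⊢
    rw [div_self hne, one_pow]
  · intro h hh
    have h1 : ‖h + s‖ = ‖(1 : ℂ) + s * h‖ := by
      have := norm_sub_eq (-s) h hh
      push_cast at this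
      rw [show h - -(s : ℂ) = h + s by ring, show (1 : ℂ) - -(s : ℂ) * h = 1 + s * h by ring] at this
      exact this
    have hpos : 0 < ‖(1 : ℂ) + s * h‖ := norm_pos_iff.2 (hne1 h hh.le)
    simp only
    rw [norm_div, norm_mul, h1, Complex.norm_real, Real.norm_eq_abs, abs_of_pos (by linarith : 0 < a)]
    apply le_of_eq
    field_simp
  · intro h hh
    have hD := normSq_one_sub s h hh
    have hR := normSq_one_sub rho h hh
    have hpos : 0 < ‖(1 : ℂ) - s * h‖ := norm_pos_iff.2 (hne2 h hh.le)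
    have hD0 : 0 < ‖(1 : ℂ) - s * h‖ ^ 2 := by positivity
    have hq : a * ‖(u : ℂ) * (h - rho) * (1 - rho * h) / (a * (1 - s * h) ^ 2)‖ =
        u * ‖(1 : ℂ) - rho * h‖ ^ 2 / ‖(1 : ℂ) - s * h‖ ^ 2 := by
      rw [norm_div, norm_mul, norm_mul, norm_mul, norm_pow, norm_sub_eq rho h hh,
        Complex.norm_real, Complex.norm_real, Real.norm_eq_abs, Real.norm_eq_abs,
        abs_of_pos (by linarith : 0 < a), abs_of_pos hu0]
      field_simp
    have hr : b * ‖((1 - u / 3 : ℂ) / (1 - s * h)) ^ 2‖ =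
        b * (1 - u / 3) ^ 2 / ‖(1 : ℂ) - s * h‖ ^ 2 := by
      have : ‖(1 - u / 3 : ℂ)‖ = 1 - u / 3 := by
        have : (1 - u / 3 : ℂ) = ((1 - u / 3 : ℝ) : ℂ) := by push_cast; ring
        rw [this, Complex.norm_real, Real.norm_eq_abs, abs_of_pos (by linarith)]
      rw [norm_pow, norm_div, this, div_pow]
      ring
    simp only
    rw [hq, hr, ← add_div, div_le_one hD0, hD, hR]
    have hkey := key_ineq a b ha hab
    -- b (1 - u/3) ≤ 1 - u
    have hk2 : b * (1 - u / 3) ≤ 1 - u := by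
      have h1 : (1 - u / 3) * (3 - a) = 4 - 2 * a := by linear_combination (-1 / 3 : ℝ) * hu'
      have h2 : (1 - u) * (3 - a) = 6 - 4 * a := by linear_combination (-1 : ℝ) * hu'
      have h3 : (b * (1 - u / 3)) * (3 - a) ≤ (1 - u) * (3 - a) := by
        rw [mul_assoc, h1, h2]; nlinarith
      exact le_of_mul_le_mul_right h3 h3a
    have hk3 : b * (1 - u / 3) ^ 2 ≤ (1 - u) * (1 - u / 3) := by
      have : 0 ≤ 1 - u / 3 := by linarith
      nlinarith
    have hsr : s * rho = u / 3 := by rw [hs]; linear_combination u * hρ2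
    have hsq : s ^ 2 = u ^ 2 / 3 := by rw [hs]; linear_combination u ^ 2 * hρ2
    have hrq : rho ^ 2 = 1 / 3 := by linear_combination hρ2
    rw [hsq, hrq]
    have : u * (1 + 1 / 3 - 2 * rho * h.re) + (1 - u) * (1 - u / 3) =
        1 + u ^ 2 / 3 - 2 * s * h.re := by
      rw [hs]; ring
    linarith

end Pool.Agent.Cube59
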